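import Mathlib.Algebra.MvPolynomial.Eval
import Mathlib.Algebra.MvPolynomial.Degrees
import Mathlib.Data.ZMod.Basic
import Mathlib.Algebra.Field.ZMod
import Mathlib.Data.Nat.Prime.Infinite
import Mathlib.Data.Fintype.BigOperators
import Mathlib.Data.Real.Basic
import Mathlib.Tactic.Ring
import Mathlib.Tactic.LinearCombination
import Mathlib.Tactic.FieldSimp
import Mathlib.Tactic.Linarith
import Mathlib.SetTheory.Cardinal.Finite
import Mathlib.Data.Fin.VecNotation
import Mathlib.Algebra.Order.Archimedean.Basic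
import Mathlib.Algebra.Order.Archimedean.Real.Basic

namespace Pool.Agent.Results.MP_642fbc_lc.NoPolynomialBound

/-- The word `u` of length `l` is an orphan of the range-2 cellular automaton `(S, f)`: no word `v`
of length `l + 1` satisfies `f(v_i, v_{i+1}) = u_i` for all `i`. -/
def IsOrphan {S : Type} (f : S → S → S) {l : ℕ} (u : Fin l → S) : Prop :=
  ¬ ∃ v : Fin (l + 1) → S, ∀ i : Fin l, f (v i.castSucc) (v i.succ) = u i

/-- `m` is the length of a shortest orphan of `(S, f)` (in particular `(S, f)` has an orphan, that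
is, it is not surjective). -/
def IsShortestOrphanLength {S : Type} (f : S → S → S) (m : ℕ) : Prop :=
  (∃ u : Fin m → S, IsOrphan f u) ∧ ∀ k < m, ∀ u : Fin k → S, ¬ IsOrphan f u

/-- `ρ(l)`: the proportion of the words in `S^l` that are orphans. -/
noncomputable def orphanProportion {S : Type} (f : S → S → S) (l : ℕ) : ℝ :=
  (Nat.card {u : Fin l → S // IsOrphan f u} : ℝ) / (Nat.card (Fin l → S) : ℝ)

/-! ### The construction -/

/-- The local rule on `F_p × F_p`. -/
def rule (p : ℕ) (a b : ZMod p × ZMod p) : ZMod p × ZMod p :=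
  if b.2 - b.1 - a.2 = 0 then (0, b.1 - a.1) else (b.2 - b.1 - a.2, a.2)

/-- `x` can be the state at position `l` of a word whose image starts as `u`. -/
def Reach (p : ℕ) (u : ℕ → ZMod p × ZMod p) (l : ℕ) (x : ZMod p × ZMod p) : Prop :=
  ∃ v : ℕ → ZMod p × ZMod p, v l = x ∧ ∀ i < l, rule p (v i) (v (i + 1)) = u i

theorem Reach.step {p : ℕ} {u : ℕ → ZMod p × ZMod p} {l : ℕ} {x y : ZMod p × ZMod p}
    (h : Reach p u l x) (hxy : rule p x y = u l) : Reach p u (l + 1) y := by
  obtain ⟨v, hv, hvi⟩ := h
  refine ⟨Function.update v (l + 1) y, by simp, fun i hi => ?_⟩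
  rcases Nat.lt_succ_iff_lt_or_eq.mp hi with h | rfl
  · rw [Function.update_of_ne (by omega), Function.update_of_ne (by omega)]
    exact hvi i h
  · rw [Function.update_of_ne (by omega), Function.update_self, hv]
    exact hxy

/-- Invariant of the reachable set. -/
def Inv (p : ℕ) (u : ℕ → ZMod p × ZMod p) (l : ℕ) : Prop :=
  (∀ x, Reach p u l x) ∨
    ∃ (i : ℕ) (c : ZMod p), i ≤ l ∧ (∀ k, l - i ≤ k → k < l → (u k).1 = 0) ∧
      ∀ x : ZMod p × ZMod p, x.2 - (i + 1 : ZMod p) * x.1 = c → Reach p u l x

theorem inv_of_noRun (p : ℕ) [hp : Fact p.Prime] (u : ℕ → ZMod p × ZMod p) (L : ℕ)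
    (hrun : ∀ j, j + (p - 1) ≤ L → ∃ k < p - 1, (u (j + k)).1 ≠ 0) :
    ∀ l ≤ L, Inv p u l := by
  have hp2 := hp.out.two_le
  intro l
  induction l with
  | zero => exact fun _ => Or.inl fun x => ⟨fun _ => x, rfl, fun i hi => by omega⟩
  | succ l ih =>
    intro hl
    have ihl := ih (by omega)
    by_cases hk : (u l).1 = 0
    · -- a letter of the first kind: the reachable set is moved by a bijection
      have hstep : ∀ y : ZMod p × ZMod p, rule p (y.1 - (u l).2, y.2 - y.1) y = u l := by
        intro y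
        have h0 : y.2 - y.1 - (y.2 - y.1) = 0 := by ring
        simp only [rule, h0, if_true]
        ext
        · simp [hk]
        · simp
      rcases ihl with hall | ⟨i, c, hil, hzero, hline⟩
      · exact Or.inl fun y => (hall _).step (hstep y)
      · right
        refine ⟨i + 1, c - (i + 1) * (u l).2, by omega, ?_, ?_⟩
        · intro k hk1 hk2
          rcases Nat.lt_succ_iff_lt_or_eq.mp hk2 with h | rfl
          · exact hzero k (by omega) h
          · exact hk
        · intro y hy
          refine (hline _ ?_).step (hstep y)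
          push_cast at hy
          simp only
          linear_combination hy
    · -- a letter of the second kind
      right
      refine ⟨0, (u l).2 + (u l).1, by omega, fun k h1 h2 => by omega, ?_⟩
      intro y hy
      have hstep : ∀ x : ZMod p × ZMod p, x.2 = (u l).2 → rule p x y = u l := by
        intro x hx
        have h1 : y.2 - y.1 - x.2 = (u l).1 := by
          rw [hx]
          push_cast at hy
          linear_combination hy
        rw [rule, h1, if_neg hk, hx]
      rcases ihl with hall | ⟨i, c, hil, hzero, hline⟩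
      · exact (hall (0, (u l).2)).step (hstep _ rfl)
      · -- the number `i` of preceding letters of the first kind is at most `p - 2`
        have hi : i < p - 1 := by
          by_contra hcon
          obtain ⟨k, hk1, hk2⟩ := hrun (l - (p - 1)) (by omega)
          exact hk2 (hzero _ (by omega) (by omega))
        have hne : ((i : ZMod p) + 1) ≠ 0 := by
          have : ((i + 1 : ℕ) : ZMod p) ≠ 0 := by
            intro h
            rw [ZMod.natCast_eq_zero_iff] at h
            have := Nat.le_of_dvd (by omega) h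
            omega
          simpa using this
        refine (hline (((u l).2 - c) / (i + 1), (u l).2) ?_).step (hstep _ rfl)
        simp only
        field_simp
        ring

theorem not_isOrphan_of_noRun (p : ℕ) [hp : Fact p.Prime] {l : ℕ} (u : Fin l → ZMod p × ZMod p)
    (hrun : ∀ j, j + (p - 1) ≤ l → ∃ i : Fin l, j ≤ i ∧ (i : ℕ) < j + (p - 1) ∧ (u i).1 ≠ 0) :
    ¬ IsOrphan (rule p) u := by
  rw [IsOrphan, not_not]
  -- extend `u` by an arbitrary value
  let u' : ℕ → ZMod p × ZMod p := fun i => if h : i < l then u ⟨i, h⟩ else 0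
  have hu' : ∀ j, j + (p - 1) ≤ l → ∃ k < p - 1, (u' (j + k)).1 ≠ 0 := by
    intro j hj
    obtain ⟨i, h1, h2, h3⟩ := hrun j hj
    refine ⟨i - j, by omega, ?_⟩
    have : j + ((i : ℕ) - j) = i := by omega
    rw [this]
    simpa [u'] using h3
  have hreach : ∃ x, Reach p u' l x := by
    rcases inv_of_noRun p u' l hu' l le_rfl with h | ⟨i, c, _, _, h⟩
    · exact ⟨0, h 0⟩
    · exact ⟨(0, c), h _ (by simp)⟩
  obtain ⟨x, v, _, hv⟩ := hreach
  refine ⟨fun i => v i, fun i => ?_⟩
  have := hv i i.2
  simpa [u'] using this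

theorem exists_orphan (p : ℕ) [hp : Fact p.Prime] :
    ∃ u : Fin (p + 1) → ZMod p × ZMod p, IsOrphan (rule p) u := by
  have hp2 := hp.out.two_le
  refine ⟨fun i => if (i : ℕ) = 0 ∨ (i : ℕ) = p then (1, 0) else (0, 0), ?_⟩
  rintro ⟨v, hv⟩
  have h10 : (1 : ZMod p) ≠ 0 := one_ne_zero
  -- first letter
  have h0 := hv 0
  simp only [Fin.val_zero, true_or, if_true, Fin.castSucc_zero] at h0
  have key : ∀ a b : ZMod p × ZMod p, rule p a b = (1, 0) → a.2 = 0 ∧ b.2 - b.1 = 1 := by
    intro a b h
    unfold rule at h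
    split_ifs at h with h'
    · simp at h
    · simp only [Prod.mk.injEq] at h
      exact ⟨h.2, by linear_combination h.1 + h.2⟩
  have key0 : ∀ a b : ZMod p × ZMod p, rule p a b = (0, 0) → b.1 = a.1 ∧ b.2 = a.1 + a.2 := by
    intro a b h
    unfold rule at h
    split_ifs at h with h'
    · simp only [Prod.mk.injEq, true_and] at h
      exact ⟨by linear_combination h, by linear_combination h' + h⟩
    · simp only [Prod.mk.injEq] at h
      exact absurd h.1 h'
  have h1 := (key _ _ h0).2
  -- the run of letters `(0, 0)`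
  have hind : ∀ j : ℕ, (hj : j + 1 ≤ p) →
      (v ⟨j + 1, by omega⟩).1 = (v (Fin.succ 0)).1 ∧
      (v ⟨j + 1, by omega⟩).2 = (v (Fin.succ 0)).2 + j * (v (Fin.succ 0)).1 := by
    intro j
    induction j with
    | zero => intro _; constructor <;> simp [Fin.succ]
    | succ j ih =>
      intro hj
      obtain ⟨ih1, ih2⟩ := ih (by omega)
      have hvj := hv ⟨j + 1, by omega⟩
      have hcond : ¬ ((j + 1 = 0) ∨ (j + 1 = p)) := by omega
      simp only [hcond, if_false] at hvj
      have hk := key0 _ _ hvj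
      have e1 : (Fin.castSucc (⟨j + 1, by omega⟩ : Fin (p + 1))) = ⟨j + 1, by omega⟩ := rfl
      have e2 : (Fin.succ (⟨j + 1, by omega⟩ : Fin (p + 1))) = ⟨j + 1 + 1, by omega⟩ := rfl
      rw [e1, e2] at hk
      refine ⟨by rw [hk.1, ih1], ?_⟩
      rw [hk.2, ih1, ih2]
      push_cast
      ring
  have hlast := (hind (p - 1) (by omega)).2
  have hvp := hv ⟨p, by omega⟩
  simp only [or_true, if_true] at hvp
  have h2 := (key _ _ hvp).1
  have e1 : (Fin.castSucc (⟨p, by omega⟩ : Fin (p + 1))) = ⟨p - 1 + 1, by omega⟩ := by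
    ext
    simp
    omega
  rw [e1, hlast] at h2
  have hcast : ((p - 1 : ℕ) : ZMod p) = -1 := by
    rw [Nat.cast_sub (by omega)]
    simp
  rw [hcast] at h2
  apply h10
  linear_combination h2 - h1

/-- The words with a run of `p - 1` letters of the first kind starting at `j`. -/
noncomputable def runWords (p l j : ℕ) [Fact p.Prime] : Finset (Fin l → ZMod p × ZMod p) :=
  Fintype.piFinset fun i : Fin l =>
    if j ≤ (i : ℕ) ∧ (i : ℕ) < j + (p - 1) then
      (Finset.univ : Finset (ZMod p × ZMod p)).filter (fun x => x.1 = 0) else Finset.univ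

theorem card_runWords (p l j : ℕ) [hp : Fact p.Prime] (hj : j + (p - 1) ≤ l) :
    (runWords p l j).card * p ^ (p - 1) = (p ^ 2) ^ l := by
  have hp2 := hp.out.two_le
  have hcard1 : ((Finset.univ : Finset (ZMod p × ZMod p)).filter (fun x => x.1 = 0)).card = p := by
    have : (Finset.univ : Finset (ZMod p × ZMod p)).filter (fun x => x.1 = 0) =
        Finset.univ.map ⟨fun y : ZMod p => ((0 : ZMod p), y), fun a b h => by simpa using h⟩ := by
      ext ⟨a, b⟩
      simp only [Finset.mem_filter, Finset.mem_univ, true_and, Finset.mem_map]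
      constructor
      · intro h
        exact ⟨b, Prod.ext h.symm rfl⟩
      · rintro ⟨c, hc⟩
        exact (congrArg Prod.fst hc).symm
    rw [this, Finset.card_map, Finset.card_univ, ZMod.card]
  have hcard2 : (Finset.univ : Finset (ZMod p × ZMod p)).card = p ^ 2 := by
    rw [Finset.card_univ, Fintype.card_prod, ZMod.card, sq]
  have hfilter : ((Finset.univ : Finset (Fin l)).filter
      (fun i : Fin l => j ≤ (i : ℕ) ∧ (i : ℕ) < j + (p - 1))).card = p - 1 := by
    have : ((Finset.univ : Finset (Fin l)).filter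
        (fun i : Fin l => j ≤ (i : ℕ) ∧ (i : ℕ) < j + (p - 1))).map Fin.valEmbedding =
        Finset.Ico j (j + (p - 1)) := by
      ext a
      simp only [Finset.mem_map, Finset.mem_filter, Finset.mem_univ, true_and,
        Fin.valEmbedding_apply, Finset.mem_Ico]
      constructor
      · rintro ⟨i, hi, rfl⟩
        exact hi
      · intro ha
        exact ⟨⟨a, by omega⟩, ha, rfl⟩
    rw [← Finset.card_map Fin.valEmbedding, this, Nat.card_Ico]
    omega
  have hprod : (runWords p l j).card =
      ∏ i : Fin l, if j ≤ (i : ℕ) ∧ (i : ℕ) < j + (p - 1) then p else p ^ 2 := by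
    rw [runWords, Fintype.card_piFinset]
    refine Finset.prod_congr rfl fun i _ => ?_
    split_ifs
    · exact hcard1
    · exact hcard2
  rw [hprod, Finset.prod_ite, Finset.prod_const, Finset.prod_const, hfilter]
  have hsplit := Finset.card_filter_add_card_filter_not (s := (Finset.univ : Finset (Fin l)))
    (fun i : Fin l => j ≤ (i : ℕ) ∧ (i : ℕ) < j + (p - 1))
  rw [hfilter, Finset.card_univ, Fintype.card_fin] at hsplit
  have hl : (p ^ 2) ^ l = (p ^ 2) ^ (p - 1) * (p ^ 2) ^ (((Finset.univ : Finset (Fin l)).filter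
      (fun i : Fin l => ¬ (j ≤ (i : ℕ) ∧ (i : ℕ) < j + (p - 1)))).card) := by
    rw [← pow_add, hsplit]
  rw [hl]
  ring

theorem orphanProportion_le (p : ℕ) [hp : Fact p.Prime] (l : ℕ) :
    orphanProportion (rule p) l ≤ l / (p : ℝ) ^ (p - 1) := by
  classical
  have hp2 := hp.out.two_le
  have hppos : (0 : ℝ) < (p : ℝ) ^ (p - 1) := by
    have : (0 : ℝ) < p := by exact_mod_cast hp.out.pos
    positivity
  have hcardS : (Nat.card (Fin l → ZMod p × ZMod p) : ℝ) = ((p : ℝ) ^ 2) ^ l := by
    rw [Nat.card_eq_fintype_card, Fintype.card_fun, Fintype.card_prod, ZMod.card, Fintype.card_fin]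
    push_cast
    ring
  have hsub : ∀ u : Fin l → ZMod p × ZMod p, IsOrphan (rule p) u →
      u ∈ (Finset.range l).biUnion (fun j => if j + (p - 1) ≤ l then runWords p l j else ∅) := by
    intro u hu
    by_contra hcon
    refine not_isOrphan_of_noRun p u ?_ hu
    intro j hj
    by_contra hno
    push Not at hno
    apply hcon
    rw [Finset.mem_biUnion]
    refine ⟨j, Finset.mem_range.mpr (by omega), ?_⟩
    rw [if_pos hj, runWords, Fintype.mem_piFinset]
    intro i
    split_ifs with hi
    · simp [hno i hi.1 hi.2]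
    · simp
  have hcard : Nat.card {u : Fin l → ZMod p × ZMod p // IsOrphan (rule p) u} * p ^ (p - 1) ≤
      l * (p ^ 2) ^ l := by
    have h1 : Nat.card {u : Fin l → ZMod p × ZMod p // IsOrphan (rule p) u} ≤
        ((Finset.range l).biUnion
          (fun j => if j + (p - 1) ≤ l then runWords p l j else ∅)).card := by
      rw [Nat.card_eq_fintype_card, Fintype.card_subtype]
      refine Finset.card_le_card fun u hu => hsub u ?_
      simpa using hu
    have h2 := Finset.card_biUnion_le (s := Finset.range l)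
      (t := fun j => if j + (p - 1) ≤ l then runWords p l j else ∅)
    calc Nat.card {u : Fin l → ZMod p × ZMod p // IsOrphan (rule p) u} * p ^ (p - 1)
        ≤ (∑ j ∈ Finset.range l, (if j + (p - 1) ≤ l then runWords p l j else ∅).card)
            * p ^ (p - 1) := Nat.mul_le_mul_right _ (h1.trans h2)
      _ = ∑ j ∈ Finset.range l,
            (if j + (p - 1) ≤ l then runWords p l j else ∅).card * p ^ (p - 1) := by
          rw [Finset.sum_mul]
      _ ≤ ∑ _j ∈ Finset.range l, (p ^ 2) ^ l := by
          refine Finset.sum_le_sum fun j _ => ?_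
          split_ifs with h
          · exact (card_runWords p l j h).le
          · simp
      _ = l * (p ^ 2) ^ l := by simp
  rw [orphanProportion, hcardS]
  have hS : (0 : ℝ) < ((p : ℝ) ^ 2) ^ l := by
    have : (0 : ℝ) < p := by exact_mod_cast hp.out.pos
    positivity
  rw [div_le_div_iff₀ hS hppos]
  exact_mod_cast hcard

/-- A real polynomial in two variables is bounded by `C * X ^ D` when both variables lie in
`[0, X]`, `1 ≤ X`. -/
theorem eval_le (P : MvPolynomial (Fin 2) ℝ) :
    ∃ (C : ℕ) (D : ℕ), ∀ X x y : ℝ, 1 ≤ X → 0 ≤ x → x ≤ X → 0 ≤ y → y ≤ X →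
      MvPolynomial.eval ![x, y] P ≤ C * X ^ D := by
  obtain ⟨C, hC⟩ := exists_nat_ge (∑ d ∈ P.support, |P.coeff d|)
  refine ⟨C, P.totalDegree, fun X x y hX hx hxX hy hyX => ?_⟩
  rw [MvPolynomial.eval_eq]
  have hterm : ∀ d ∈ P.support,
      P.coeff d * ∏ i ∈ d.support, ![x, y] i ^ d i ≤ |P.coeff d| * X ^ P.totalDegree := by
    intro d hd
    have hle : ∏ i ∈ d.support, ![x, y] i ^ d i ≤ X ^ P.totalDegree := by
      calc ∏ i ∈ d.support, ![x, y] i ^ d i ≤ ∏ i ∈ d.support, X ^ d i := by
            refine Finset.prod_le_prod (fun i _ => ?_) (fun i _ => ?_)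
            · fin_cases i
              · exact pow_nonneg hx _
              · exact pow_nonneg hy _
            · fin_cases i
              · exact pow_le_pow_left₀ hx hxX _
              · exact pow_le_pow_left₀ hy hyX _
        _ = X ^ (∑ i ∈ d.support, d i) := by rw [Finset.prod_pow_eq_pow_sum]
        _ ≤ X ^ P.totalDegree := by
            refine pow_le_pow_right₀ hX ?_
            exact MvPolynomial.le_totalDegree hd
    have hnn : 0 ≤ ∏ i ∈ d.support, ![x, y] i ^ d i := by
      refine Finset.prod_nonneg fun i _ => ?_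
      fin_cases i
      · exact pow_nonneg hx _
      · exact pow_nonneg hy _
    calc P.coeff d * ∏ i ∈ d.support, ![x, y] i ^ d i
        ≤ |P.coeff d| * ∏ i ∈ d.support, ![x, y] i ^ d i :=
          mul_le_mul_of_nonneg_right (le_abs_self _) hnn
      _ ≤ |P.coeff d| * X ^ P.totalDegree := mul_le_mul_of_nonneg_left hle (abs_nonneg _)
  calc ∑ d ∈ P.support, P.coeff d * ∏ i ∈ d.support, ![x, y] i ^ d i
      ≤ ∑ d ∈ P.support, |P.coeff d| * X ^ P.totalDegree := Finset.sum_le_sum hterm
    _ = (∑ d ∈ P.support, |P.coeff d|) * X ^ P.totalDegree := by rw [Finset.sum_mul]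
    _ ≤ C * X ^ P.totalDegree := by
        refine mul_le_mul_of_nonneg_right hC ?_
        positivity

/-- There is no polynomial `P(x, y)` such that for every non-surjective range-2 cellular automaton
with `n` states and shortest orphan length `m` one has `ρ(l) > 1/2` for some `l ≤ P(n, m)`. -/
theorem result :
    ¬ ∃ P : MvPolynomial (Fin 2) ℝ, ∀ (S : Type) (_ : Fintype S) (_ : Nonempty S)
      (f : S → S → S) (m : ℕ), IsShortestOrphanLength f m →
        ∃ l : ℕ, (l : ℝ) ≤ MvPolynomial.eval ![(Fintype.card S : ℝ), (m : ℝ)] P ∧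
          1 / 2 < orphanProportion f l := by
  classical
  rintro ⟨P, hP⟩
  obtain ⟨C, D, hCD⟩ := eval_le P
  obtain ⟨p, hpge, hprime⟩ := Nat.exists_infinite_primes (2 * C + 2 * D + 2)
  have : Fact p.Prime := ⟨hprime⟩
  have hex : ∃ m, ∃ u : Fin m → ZMod p × ZMod p, IsOrphan (rule p) u := ⟨_, exists_orphan p⟩
  have hshort : IsShortestOrphanLength (rule p) (Nat.find hex) :=
    ⟨Nat.find_spec hex, fun k hk u hu => Nat.find_min hex hk ⟨u, hu⟩⟩
  obtain ⟨l, hl, hrho⟩ := hP (ZMod p × ZMod p) inferInstance ⟨0⟩ (rule p) (Nat.find hex) hshort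
  have hm : Nat.find hex ≤ p + 1 := Nat.find_min' hex (exists_orphan p)
  have hcard : (Fintype.card (ZMod p × ZMod p) : ℝ) = (p : ℝ) ^ 2 := by
    rw [Fintype.card_prod, ZMod.card]
    push_cast
    ring
  have hp2 : (2 : ℝ) ≤ p := by exact_mod_cast hprime.two_le
  have hle := hCD ((p : ℝ) ^ 2) (Fintype.card (ZMod p × ZMod p)) (Nat.find hex) (by nlinarith)
    (by positivity) hcard.le (by positivity) (by
      have : ((Nat.find hex : ℕ) : ℝ) ≤ (p : ℝ) + 1 := by exact_mod_cast hm
      nlinarith)
  have h1 := orphanProportion_le p l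
  have hpow : (p : ℝ) ^ (2 * D + 1) ≤ (p : ℝ) ^ (p - 1) :=
    pow_le_pow_right₀ (by linarith) (by omega)
  have hC : 2 * (C : ℝ) ≤ p := by
    have : 2 * C ≤ p := by omega
    exact_mod_cast this
  have hl2 : (l : ℝ) ≤ (p : ℝ) ^ (p - 1) / 2 := by
    calc (l : ℝ) ≤ C * ((p : ℝ) ^ 2) ^ D := hl.trans hle
      _ ≤ (p / 2) * ((p : ℝ) ^ 2) ^ D := by
          refine mul_le_mul_of_nonneg_right (by linarith) (by positivity)
      _ = (p : ℝ) ^ (2 * D + 1) / 2 := by
          rw [← pow_mul]
          ring
      _ ≤ (p : ℝ) ^ (p - 1) / 2 := by linarith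
  have hpos : (0 : ℝ) < (p : ℝ) ^ (p - 1) := by positivity
  have h2 : (l : ℝ) / (p : ℝ) ^ (p - 1) ≤ 1 / 2 := by
    rw [div_le_iff₀ hpos]
    linarith
  linarith

end Pool.Agent.Results.MP_642fbc_lc.NoPolynomialBound
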